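import Pool.Agent.H5.AF.Main

/-!
`MP_a6fbd6_an`, question Q2: for small `ε₁, ε₂` the max-min problem in the piecewise linear field
`φ` has a solution, and every solution contains the segment `i [-h, h]` of the imaginary axis
(`h < 1` arbitrary).
-/

set_option autoImplicit false

namespace Pool.Agent.Results.MP_a6fbd6_an.MaxMinSegment

open Pool.Agent.H5.AF

/-- For all `k₁, k₂ > 0` and `0 < h < 1` there is `ε₀ > 0` such that for all `ε₁, ε₂` in `(0, ε₀)`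
there is a max-min continuum, and every max-min continuum contains all the points `i y`,
`|y| ≤ h`. -/
theorem result (k₁ k₂ h : ℝ) (hk₁ : 0 < k₁) (hk₂ : 0 < k₂) (h0 : 0 < h) (h1 : h < 1) :
    ∃ ε₀ : ℝ, 0 < ε₀ ∧ ∀ ε₁ ε₂ : ℝ, 0 < ε₁ → ε₁ < ε₀ → 0 < ε₂ → ε₂ < ε₀ →
      (∃ Γ : Set ℂ, MaxMin k₁ k₂ ε₁ ε₂ Γ) ∧
        ∀ Γ : Set ℂ, MaxMin k₁ k₂ ε₁ ε₂ Γ → ∀ y : ℝ, |y| ≤ h → (y : ℂ) * Complex.I ∈ Γ := by
  obtain ⟨ε₀, e0, H⟩ := main k₁ k₂ h hk₁ hk₂ h0 h1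
  refine ⟨ε₀, e0, fun ε₁ ε₂ e₁ e₁' e₂ e₂' => ⟨(H ε₁ ε₂ e₁ e₁' e₂ e₂').1, fun Γ hΓ y hy => ?_⟩⟩
  have h2 := (H ε₁ ε₂ e₁ e₁' e₂ e₂').2 Γ hΓ y hy
  have e : (y : ℂ) * Complex.I = ⟨0, y⟩ := by
    apply Complex.ext <;> simp
  rw [e]
  exact h2

end Pool.Agent.Results.MP_a6fbd6_an.MaxMinSegment
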